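import Pool.Agent.H34CP.Gr.Circ

/-!
A family of subgraphs with all degrees zero or two gives a faithful cover (MP_472c72).
-/

namespace H48FJ

open Pool.Agent.H66.GD Pool.Agent.H21.PT Pool.Agent.H34CP.Gr Finset
open scoped Classical

universe u

variable {V : Type u} [Fintype V] {G : SimpleGraph V} {w : Sym2 V → ℕ}

omit [Fintype V] in
lemma deg_reach [Finite V] {H : SimpleGraph V}
    (hdeg : ∀ v, (H.neighborSet v).ncard = 0 ∨ (H.neighborSet v).ncard = 2) {r v : V}
    (hr : (H.neighborSet r).ncard = 2) (h : H.Reachable r v) : (H.neighborSet v).ncard = 2 := by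
  rw [SimpleGraph.reachable_iff_reflTransGen] at h
  rcases Relation.ReflTransGen.cases_tail h with h1 | ⟨q, -, h1⟩
  · rw [h1]; exact hr
  · refine (hdeg v).resolve_left fun h2 => ?_
    have h3 := (Set.ncard_eq_zero (Set.toFinite _)).1 h2
    have h4 : q ∈ H.neighborSet v := h1.symm
    rw [h3] at h4
    exact h4

/-- finitely many subgraphs with all degrees zero or two which count every edge `e` exactly `w e`
times give a faithful cover -/
theorem cover_of_family (ι : Type) [Finite ι] (H : ι → SimpleGraph V) (hle : ∀ i, H i ≤ G)
    (hdeg : ∀ i v, ((H i).neighborSet v).ncard = 0 ∨ ((H i).neighborSet v).ncard = 2)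
    (hw : ∀ u v, G.Adj u v → {i | (H i).Adj u v}.ncard = w s(u, v)) : FaithfulCover G w := by
  refine faithful_of_index (ι := Σ i : ι, {c : (H i).ConnectedComponent //
    ((H i).neighborSet c.exists_rep.choose).ncard = 2})
    (fun i => comp (hle i.1) i.2.1.exists_rep.choose)
    (fun i => comp_circuit _ _ fun v hv => deg_reach (hdeg _) i.2.2 hv) ?_
  intro e he
  induction e using Sym2.ind with
  | _ u v =>
    rw [← hw u v he]
    have hrep : ∀ i, (H i).Reachable ((H i).connectedComponentMk u).exists_rep.choose u := fun i =>
      SimpleGraph.ConnectedComponent.exact ((H i).connectedComponentMk u).exists_rep.choose_spec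
    have hex : ∀ i, (H i).Adj u v →
        ((H i).neighborSet ((H i).connectedComponentMk u).exists_rep.choose).ncard = 2 := by
      intro i hi
      have h1 : ((H i).neighborSet u).ncard = 2 := by
        refine (hdeg i u).resolve_left fun h2 => ?_
        have h3 := (Set.ncard_eq_zero (Set.toFinite _)).1 h2
        have h4 : v ∈ (H i).neighborSet u := hi
        rw [h3] at h4
        exact h4
      exact deg_reach (hdeg i) h1 (hrep i).symm
    refine Set.ncard_congr (fun i _ => i.1) ?_ ?_ ?_
    · rintro ⟨i, c, hc⟩ h
      exact h.1
    · rintro ⟨i, c, hc⟩ ⟨j, d, hd⟩ h h' hij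
      have hij' : i = j := hij
      subst hij'
      have h1 : (H i).connectedComponentMk u = c := by
        rw [← c.exists_rep.choose_spec]
        exact (SimpleGraph.ConnectedComponent.sound h.2).symm
      have h2 : (H i).connectedComponentMk u = d := by
        rw [← d.exists_rep.choose_spec]
        exact (SimpleGraph.ConnectedComponent.sound h'.2).symm
      subst h1
      subst h2
      rfl
    · intro i hi
      exact ⟨⟨i, (H i).connectedComponentMk u, hex i hi⟩, ⟨hi, hrep i⟩, rfl⟩

end H48FJ
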