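import Pool.Agent.H48.FJ.Min
import Pool.Agent.H48.FJ.Fam
import Pool.Agent.H13.FJ.Tri
import Pool.Agent.H34CP.Gr.Abstr

/-!
Minimal contra pairs (MP_472c72), assembled.
-/

namespace H48FJ

open Pool.Agent.H66.GD Pool.Agent.H21.PT Pool.Agent.H34CP.Gr Finset
open scoped Classical

universe u

variable {V : Type u} [Fintype V] {G : SimpleGraph V} {w : Sym2 V → ℕ}

/-- **Minimal contra pairs.** -/
theorem min_contra (hG : Cubic G) (hb : Bridgeless G) (hw : IsWeight G w)
    (hno : ¬ ∃ C : G.Subgraph, Removable G w C) (hcon : ¬ FaithfulCover G w)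
    (hmin : ∀ e ∈ G.edgeSet, w e = 2 → CoverMinus G w e) : IsP10 G w := by
  have hcc : CycConn4 G := cyc_of_min (fun ι _ H h1 h2 h3 => cover_of_family ι H h1 h2 h3)
    (fun {_ _} hh hcon {_ _} hc {_ _} h1 h2 h3 => no_tri_cov hh hcon hc h1 h2 h3) hG hb hw hno hcon hmin
  obtain ⟨x, y, hxy⟩ := exists_two hG hw hcon
  exact one_edge_cover hG hb hcc hw hno hxy.1 hxy.2 (hmin _ hxy.1 hxy.2)

/-- One coverable edge in a cyclically 4-edge-connected graph, or all edges coverable. -/
theorem one_or_all (hG : Cubic G) (hb : Bridgeless G) (hw : IsWeight G w)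
    (hno : ¬ ∃ C : G.Subgraph, Removable G w C) {e : Sym2 V} (he : e ∈ G.edgeSet) (h2 : w e = 2)
    (hcov : CoverMinus G w e)
    (hcc : CycConn4 G ∨ ∀ f ∈ G.edgeSet, w f = 2 → CoverMinus G w f) : IsP10 G w := by
  rcases hcc with h | h
  · exact one_edge_cover hG hb h hw hno he h2 hcov
  · exact min_contra hG hb hw hno (fun h3 => hno (removable_of_cover hw he h3)) h

end H48FJ
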