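import Pool.Agent.H34CP.Gr.Circ
import Pool.Agent.H34CP.Gr.Side

/-!
Gluing faithful covers over an edge cut with at most three edges (MP_472c72, minimal contra pairs).
-/

namespace H48FJ

open Pool.Agent.H66.GD Pool.Agent.H21.PT Finset
open scoped Classical

universe u

/-! ### Families of sets of even size inside a set with at most three elements -/

section sets

variable {α : Type*}

lemma sum_eps {X S T : Finset α} (hX : X.card ≤ 3) (hS : S ⊆ X) (hT : T ⊆ X) (cS : S.card = 2)
    (eT : Even T.card) :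
    ∑ p ∈ X, (if p ∈ S then (1 : ℤ) else -1) * (if p ∈ T then 1 else 0) =
      if T = S then 2 else 0 := by
  have h1 : ∑ p ∈ X, (if p ∈ S then (1 : ℤ) else -1) * (if p ∈ T then 1 else 0) =
      ((T ∩ S).card : ℤ) - ((T \ S).card : ℤ) := by
    have h2 : ∀ p ∈ X, (if p ∈ S then (1 : ℤ) else -1) * (if p ∈ T then 1 else 0) =
        (if p ∈ T ∩ S then (1 : ℤ) else 0) - (if p ∈ T \ S then (1 : ℤ) else 0) := by
      intro p _
      by_cases h3 : p ∈ S <;> by_cases h4 : p ∈ T <;> simp [h3, h4]
    rw [sum_congr rfl h2, sum_sub_distrib, sum_ite_mem, sum_ite_mem]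
    rw [inter_eq_right.2 (inter_subset_left.trans hT), inter_eq_right.2 (sdiff_subset.trans hT)]
    simp
  rw [h1]
  have h2 := card_inter_add_card_sdiff T S
  have h3 : (T \ S).card ≤ 1 := by
    have h4 : (T \ S).card ≤ (X \ S).card := card_le_card (sdiff_subset_sdiff hT (le_refl _))
    rw [card_sdiff_of_subset hS] at h4
    omega
  have h5 : T.card ≤ 3 := (card_le_card hT).trans hX
  obtain ⟨k, hk⟩ := eT
  by_cases hTS : T = S
  · rw [if_pos hTS]
    subst hTS
    rw [sdiff_self, inter_self]
    simp [cS]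
  · rw [if_neg hTS]
    have h6 : T.card = 0 ∨ T.card = 2 := by omega
    rcases h6 with h6 | h6
    · rw [card_eq_zero] at h6
      subst h6
      simp
    · have h7 : (T \ S).card ≠ 0 := by
        intro h8
        rw [card_eq_zero, sdiff_eq_empty_iff_subset] at h8
        exact hTS (eq_of_subset_of_card_le h8 (by omega))
      omega

lemma two_count {ι : Type*} [Fintype ι] {X S : Finset α} (hX : X.card ≤ 3) (hS : S ⊆ X)
    (cS : S.card = 2) (T : ι → Finset α) (hT : ∀ i, T i ⊆ X) (eT : ∀ i, Even (T i).card) :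
    2 * ((univ.filter fun i => T i = S).card : ℤ) =
      ∑ p ∈ X, (if p ∈ S then (1 : ℤ) else -1) * ((univ.filter fun i => p ∈ T i).card : ℤ) := by
  have h1 : ∑ i, ∑ p ∈ X, (if p ∈ S then (1 : ℤ) else -1) * (if p ∈ T i then 1 else 0) =
      ∑ i, if T i = S then (2 : ℤ) else 0 :=
    sum_congr rfl fun i _ => sum_eps hX hS (hT i) cS (eT i)
  rw [sum_comm] at h1
  have h2 : ∑ i, (if T i = S then (2 : ℤ) else 0) =
      2 * ((univ.filter fun i => T i = S).card : ℤ) := by
    rw [← sum_filter, sum_const, nsmul_eq_mul, mul_comm]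
  rw [← h2, ← h1]
  refine sum_congr rfl fun p _ => ?_
  rw [← mul_sum]
  congr 1
  rw [sum_boole]

lemma ne_of_even {X S U : Finset α} (hX : X.card ≤ 3) (hS : S ≠ ∅)
    (h1 : ¬ (S ⊆ X ∧ S.card = 2)) (hU : U ⊆ X) (eU : Even U.card) : ¬ U = S := by
  intro hi
  apply h1
  subst hi
  refine ⟨hU, ?_⟩
  have h3 : U.card ≤ 3 := (card_le_card hU).trans hX
  obtain ⟨k, hk⟩ := eU
  have h4 : U.card ≠ 0 := fun h5 => hS (card_eq_zero.1 h5)
  omega

/-- the fibres of two families with the same multiplicities have the same sizes -/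
lemma count_eq {ι κ : Type*} [Fintype ι] [Fintype κ] (hc : Fintype.card ι = Fintype.card κ)
    {X : Finset α} (hX : X.card ≤ 3) (T : ι → Finset α) (T' : κ → Finset α)
    (hT : ∀ i, T i ⊆ X) (hT' : ∀ i, T' i ⊆ X) (eT : ∀ i, Even (T i).card)
    (eT' : ∀ i, Even (T' i).card)
    (hm : ∀ p ∈ X, (univ.filter fun i => p ∈ T i).card = (univ.filter fun i => p ∈ T' i).card)
    (S : Finset α) :
    (univ.filter fun i => T i = S).card = (univ.filter fun i => T' i = S).card := by
  have hne : ∀ S : Finset α, S ≠ ∅ →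
      (univ.filter fun i => T i = S).card = (univ.filter fun i => T' i = S).card := by
    intro S hS
    by_cases h1 : S ⊆ X ∧ S.card = 2
    · have h2 := two_count hX h1.1 h1.2 T hT eT
      have h3 := two_count hX h1.1 h1.2 T' hT' eT'
      have h4 : ∑ p ∈ X, (if p ∈ S then (1 : ℤ) else -1) *
          ((univ.filter fun i => p ∈ T i).card : ℤ) =
          ∑ p ∈ X, (if p ∈ S then (1 : ℤ) else -1) *
          ((univ.filter fun i => p ∈ T' i).card : ℤ) :=
        sum_congr rfl fun p hp => by rw [hm p hp]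
      omega
    · rw [filter_false_of_mem fun i _ => ne_of_even hX hS h1 (hT i) (eT i),
        filter_false_of_mem fun i _ => ne_of_even hX hS h1 (hT' i) (eT' i)]
      simp
  by_cases hS : S = ∅
  · subst hS
    have h1 : (univ : Finset ι).card =
        ∑ S ∈ X.powerset, (univ.filter fun i => T i = S).card :=
      card_eq_sum_card_fiberwise fun i _ => mem_coe.2 (mem_powerset.2 (hT i))
    have h2 : (univ : Finset κ).card =
        ∑ S ∈ X.powerset, (univ.filter fun i => T' i = S).card :=
      card_eq_sum_card_fiberwise fun i _ => mem_coe.2 (mem_powerset.2 (hT' i))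
    have h3 : (∅ : Finset α) ∈ X.powerset := empty_mem_powerset X
    rw [← add_sum_erase _ _ h3] at h1 h2
    have h4 : ∑ S ∈ X.powerset.erase ∅, (univ.filter fun i => T i = S).card =
        ∑ S ∈ X.powerset.erase ∅, (univ.filter fun i => T' i = S).card :=
      sum_congr rfl fun S hS => hne S (ne_of_mem_erase hS)
    rw [card_univ] at h1 h2
    omega
  · exact hne S hS

/-- a bijection which respects two functions with fibres of the same sizes -/
lemma exists_equiv {ι κ γ : Type*} [Fintype ι] [Fintype κ] (f : ι → γ) (g : κ → γ)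
    (h : ∀ c, (univ.filter fun i => f i = c).card = (univ.filter fun j => g j = c).card) :
    ∃ σ : ι ≃ κ, ∀ i, g (σ i) = f i := by
  have h1 : ∀ c, Nonempty ({i // f i = c} ≃ {j // g j = c}) := by
    intro c
    rw [← Fintype.card_eq, Fintype.card_subtype, Fintype.card_subtype]
    exact h c
  exact ⟨(Equiv.sigmaFiberEquiv f).symm.trans ((Equiv.sigmaCongrRight fun c =>
    (h1 c).some).trans (Equiv.sigmaFiberEquiv g)), fun i => ((h1 (f i)).some ⟨i, rfl⟩).2⟩

end sets

/-! ### Gluing -/

variable {V : Type u} [Fintype V] {G : SimpleGraph V} {w : Sym2 V → ℕ}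

/-- the pairs of adjacent vertices across a cut -/
noncomputable def cr (H : SimpleGraph V) (A : V → Prop) : Finset (V × V) :=
  univ.filter fun p => H.Adj p.1 p.2 ∧ A p.1 ∧ ¬ A p.2

lemma mem_cr {H : SimpleGraph V} {A : V → Prop} {p : V × V} :
    p ∈ cr H A ↔ H.Adj p.1 p.2 ∧ A p.1 ∧ ¬ A p.2 := by
  unfold cr
  rw [mem_filter]
  exact and_iff_right (mem_univ _)

lemma cr_mono {H : SimpleGraph V} (hle : H ≤ G) (A : V → Prop) : cr H A ⊆ cr G A := by
  intro p hp
  rw [mem_cr] at hp ⊢
  exact ⟨hle hp.1, hp.2⟩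

/-- a graph with even degrees has an even number of edges across -/
lemma cross_even (H : SimpleGraph V)
    (hdeg : ∀ v, (H.neighborSet v).ncard = 0 ∨ (H.neighborSet v).ncard = 2) (A : V → Prop) :
    Even (cr H A).card := by
  set S : Finset V := univ.filter A with hS
  have h1 : Even (ct H.Adj S univ) := by
    unfold ct
    refine Finset.even_sum _ fun v _ => ?_
    rw [← card_filter]
    have h2 : H.neighborSet v = ((univ.filter fun u => H.Adj v u : Finset V) : Set V) := by
      ext u; simp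
    have h3 := hdeg v
    rw [h2, Set.ncard_coe_finset] at h3
    rcases h3 with h3 | h3
    · rw [h3]; exact ⟨0, rfl⟩
    · rw [h3]; exact ⟨1, rfl⟩
  have h2 : (univ : Finset V) = S ∪ univ.filter fun v => ¬ A v := by
    ext v
    simp only [hS, mem_univ, mem_union, mem_filter, true_and, true_iff]
    exact em _
  have h3 : Disjoint S (univ.filter fun v => ¬ A v) := by
    rw [Finset.disjoint_left]
    intro v hv hv'
    rw [hS, mem_filter] at hv
    rw [mem_filter] at hv'
    exact hv'.2 hv.2
  rw [h2, ct_union_right _ h3, Nat.even_add] at h1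
  have h4 := ct_even (fun u v (h : H.Adj u v) => h.symm) (fun v => H.loopless.irrefl v) S
  have h5 := h1.1 h4
  rw [ct_eq_card] at h5
  convert h5 using 2
  ext ⟨u, v⟩
  rw [mem_cr, mem_filter, mem_product, hS, mem_filter, mem_filter]
  simp only [mem_univ, true_and]
  tauto

/-- two graphs glued along a cut -/
def glu (H K : SimpleGraph V) (A : V → Prop) : SimpleGraph V where
  Adj u v := (A u ∨ A v) ∧ H.Adj u v ∨ ¬ (A u ∨ A v) ∧ K.Adj u v
  symm := ⟨fun u v h => by
    rcases h with h | h
    · exact Or.inl ⟨h.1.symm, h.2.symm⟩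
    · exact Or.inr ⟨fun h1 => h.1 h1.symm, h.2.symm⟩⟩
  loopless := ⟨fun v h => by
    rcases h with h | h
    · exact H.loopless.irrefl v h.2
    · exact K.loopless.irrefl v h.2⟩

omit [Fintype V] in
lemma glu_adj_l {H K : SimpleGraph V} {A : V → Prop} {u v : V} (h : A u ∨ A v) :
    (glu H K A).Adj u v ↔ H.Adj u v := by
  constructor
  · rintro (h1 | h1)
    · exact h1.2
    · exact absurd h h1.1
  · intro h1
    exact Or.inl ⟨h, h1⟩

omit [Fintype V] in
lemma glu_adj_r {H K : SimpleGraph V} {A : V → Prop} {u v : V} (h : ¬ (A u ∨ A v)) :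
    (glu H K A).Adj u v ↔ K.Adj u v := by
  constructor
  · rintro (h1 | h1)
    · exact absurd h1.1 h
    · exact h1.2
  · intro h1
    exact Or.inr ⟨h, h1⟩

omit [Fintype V] in
lemma glu_nbr_l {H K : SimpleGraph V} {A : V → Prop} {v : V} (h : A v) :
    (glu H K A).neighborSet v = H.neighborSet v := by
  ext u
  exact glu_adj_l (Or.inl h)

lemma glu_nbr_r {H K : SimpleGraph V} {A : V → Prop} (he : cr H A = cr K A) {v : V}
    (h : ¬ A v) : (glu H K A).neighborSet v = K.neighborSet v := by
  ext u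
  rw [SimpleGraph.mem_neighborSet, SimpleGraph.mem_neighborSet]
  by_cases hu : A u
  · rw [glu_adj_l (Or.inr hu)]
    have h1 : (u, v) ∈ cr H A ↔ (u, v) ∈ cr K A := by rw [he]
    rw [mem_cr, mem_cr] at h1
    constructor
    · intro h2
      exact (h1.1 ⟨h2.symm, hu, h⟩).1.symm
    · intro h2
      exact (h1.2 ⟨h2.symm, hu, h⟩).1.symm
  · exact glu_adj_r (by rintro (h1 | h1); exacts [h h1, hu h1])

/-- gluing two families of the same size -/
theorem glue_core {ι κ : Type} [Fintype ι] [Fintype κ] (hc : Fintype.card ι = Fintype.card κ)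
    (A : V → Prop) (hA : (cr G A).card ≤ 3) (D : ι → SimpleGraph V) (D' : κ → SimpleGraph V)
    (hD : ∀ i, D i ≤ G) (hD' : ∀ i, D' i ≤ G)
    (dD : ∀ i v, ((D i).neighborSet v).ncard = 0 ∨ ((D i).neighborSet v).ncard = 2)
    (dD' : ∀ i v, ((D' i).neighborSet v).ncard = 0 ∨ ((D' i).neighborSet v).ncard = 2)
    (h1 : ∀ u v, G.Adj u v → A u → {i | (D i).Adj u v}.ncard = w s(u, v))
    (h2 : ∀ u v, G.Adj u v → ¬ A u → {i | (D' i).Adj u v}.ncard = w s(u, v)) :
    ∃ H : ι → SimpleGraph V, (∀ i, H i ≤ G) ∧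
      (∀ i v, ((H i).neighborSet v).ncard = 0 ∨ ((H i).neighborSet v).ncard = 2) ∧
      ∀ u v, G.Adj u v → {i | (H i).Adj u v}.ncard = w s(u, v) := by
  have hm : ∀ p ∈ cr G A, (univ.filter fun i => p ∈ cr (D i) A).card =
      (univ.filter fun i => p ∈ cr (D' i) A).card := by
    rintro ⟨u, v⟩ hp
    rw [mem_cr] at hp
    have h3 : {i | (D i).Adj u v} = ((univ.filter fun i => (u, v) ∈ cr (D i) A : Finset ι) :
        Set ι) := by
      ext i
      simp only [Set.mem_ofPred_eq, coe_filter, mem_univ, true_and, mem_cr]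
      exact ⟨fun h => ⟨h, hp.2⟩, fun h => h.1⟩
    have h4 : {i | (D' i).Adj v u} = ((univ.filter fun i => (u, v) ∈ cr (D' i) A : Finset κ) :
        Set κ) := by
      ext i
      simp only [Set.mem_ofPred_eq, coe_filter, mem_univ, true_and, mem_cr]
      exact ⟨fun h => ⟨h.symm, hp.2⟩, fun h => h.1.symm⟩
    have h5 := h1 u v hp.1 hp.2.1
    have h6 := h2 v u hp.1.symm hp.2.2
    rw [h3, Set.ncard_coe_finset] at h5
    rw [h4, Set.ncard_coe_finset, Sym2.eq_swap] at h6
    rw [h5, h6]
  have hm' := count_eq hc hA (fun i => cr (D i) A) (fun i => cr (D' i) A)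
    (fun i => cr_mono (hD i) A) (fun i => cr_mono (hD' i) A) (fun i => cross_even _ (dD i) A)
    (fun i => cross_even _ (dD' i) A) fun p hp => by convert hm p hp
  obtain ⟨σ, hσ⟩ := exists_equiv (fun i => cr (D i) A) (fun i => cr (D' i) A)
    fun S => by convert hm' S
  refine ⟨fun i => glu (D i) (D' (σ i)) A, ?_, ?_, ?_⟩
  · rintro i u v (h | h)
    · exact hD i h.2
    · exact hD' _ h.2
  · intro i v
    by_cases h : A v
    · rw [glu_nbr_l h]
      exact dD i v
    · rw [glu_nbr_r (hσ i).symm h]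
      exact dD' _ v
  · intro u v huv
    by_cases h : A u ∨ A v
    · have h3 : {i | (glu (D i) (D' (σ i)) A).Adj u v} = {i | (D i).Adj u v} := by
        ext i
        exact glu_adj_l h
      rw [h3]
      rcases h with h | h
      · exact h1 u v huv h
      · have h4 : {i | (D i).Adj u v} = {i | (D i).Adj v u} := by
          ext i
          exact ⟨fun h => h.symm, fun h => h.symm⟩
        rw [h4, Sym2.eq_swap]
        exact h1 v u huv.symm h
    · have h3 : {i | (glu (D i) (D' (σ i)) A).Adj u v} = σ.symm '' {i | (D' i).Adj u v} := by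
        ext i
        rw [Set.mem_ofPred_eq, glu_adj_r h]
        constructor
        · intro h4
          exact ⟨σ i, h4, by simp⟩
        · rintro ⟨j, hj, rfl⟩
          simpa using hj
      rw [h3, Set.ncard_image_of_injective _ σ.symm.injective]
      exact h2 u v huv fun h4 => h (Or.inl h4)

omit [Fintype V] in
/-- padding a family of circuits -/
lemma pad_deg {ι κ : Type} (C : ι → G.Subgraph) (hC : ∀ i, IsCircuit (C i)) (i : ι ⊕ κ) (v : V) :
    (((Sum.elim (fun i => (C i).spanningCoe) (fun _ => ⊥) : ι ⊕ κ → SimpleGraph V)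
      i).neighborSet v).ncard = 0 ∨
    (((Sum.elim (fun i => (C i).spanningCoe) (fun _ => ⊥) : ι ⊕ κ → SimpleGraph V)
      i).neighborSet v).ncard = 2 := by
  rcases i with i | i
  · by_cases h : v ∈ (C i).verts
    · right
      exact (hC i).2 v h
    · left
      have h1 : ((C i).spanningCoe).neighborSet v = ∅ := by
        ext u
        simp only [SimpleGraph.mem_neighborSet, Set.mem_empty_iff_false, iff_false]
        intro h2
        exact h ((C i).edge_vert h2)
      rw [Sum.elim_inl, h1, Set.ncard_empty]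
  · left
    have h1 : (⊥ : SimpleGraph V).neighborSet v = ∅ := by
      ext u
      simp
    rw [Sum.elim_inr, h1, Set.ncard_empty]

omit [Fintype V] in
lemma pad_le {ι κ : Type} (C : ι → G.Subgraph) (i : ι ⊕ κ) :
    (Sum.elim (fun i => (C i).spanningCoe) (fun _ => ⊥) : ι ⊕ κ → SimpleGraph V) i ≤ G := by
  rcases i with i | i
  · exact (C i).spanningCoe_le
  · exact bot_le

omit [Fintype V] in
lemma pad_count {ι κ : Type} (C : ι → G.Subgraph) (u v : V) :
    {i : ι ⊕ κ | ((Sum.elim (fun i => (C i).spanningCoe) (fun _ => ⊥) :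
      ι ⊕ κ → SimpleGraph V) i).Adj u v}.ncard = {i | s(u, v) ∈ (C i).edgeSet}.ncard := by
  have h1 : {i : ι ⊕ κ | ((Sum.elim (fun i => (C i).spanningCoe) (fun _ => ⊥) :
      ι ⊕ κ → SimpleGraph V) i).Adj u v} = Sum.inl '' {i | s(u, v) ∈ (C i).edgeSet} := by
    ext i
    rcases i with i | i
    · simp
    · simp
  rw [h1, Set.ncard_image_of_injective _ Sum.inl_injective]

/-- Two families of circuits which have the right counts on the edges with an end in `A` and on
the edges with an end outside `A` give a family of subgraphs with all degrees zero or two with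
the right counts, when at most three edges leave `A`. -/
theorem glue_fam (A : V → Prop) (hA : (cr G A).card ≤ 3) {n n' : ℕ} (C : Fin n → G.Subgraph)
    (C' : Fin n' → G.Subgraph) (hC : ∀ i, IsCircuit (C i)) (hC' : ∀ i, IsCircuit (C' i))
    (h1 : ∀ u v, G.Adj u v → A u → {i | s(u, v) ∈ (C i).edgeSet}.ncard = w s(u, v))
    (h2 : ∀ u v, G.Adj u v → ¬ A u → {i | s(u, v) ∈ (C' i).edgeSet}.ncard = w s(u, v)) :
    ∃ H : Fin n ⊕ Fin n' → SimpleGraph V, (∀ i, H i ≤ G) ∧
      (∀ i v, ((H i).neighborSet v).ncard = 0 ∨ ((H i).neighborSet v).ncard = 2) ∧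
      ∀ u v, G.Adj u v → {i | (H i).Adj u v}.ncard = w s(u, v) := by
  refine glue_core (ι := Fin n ⊕ Fin n') (κ := Fin n' ⊕ Fin n) ?_ A hA
    (Sum.elim (fun i => (C i).spanningCoe) (fun _ => ⊥))
    (Sum.elim (fun i => (C' i).spanningCoe) (fun _ => ⊥)) (pad_le C) (pad_le C')
    (pad_deg C hC) (pad_deg C' hC') ?_ ?_
  · simp [add_comm]
  · intro u v huv hu
    rw [pad_count]
    exact h1 u v huv hu
  · intro u v huv hu
    rw [pad_count]
    exact h2 u v huv hu

end H48FJ
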