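import Pool.Agent.H48.FJ.Glue
import Pool.Agent.H34CP.Gr.Final

/-!
Minimal contra pairs are cyclically 4-edge-connected (MP_472c72).
-/

namespace H48FJ

open Pool.Agent.H66.GD Pool.Agent.H21.PT Pool.Agent.H34CP.Gr Finset
open scoped Classical

universe u

variable {V : Type u} [Fintype V] {G : SimpleGraph V} {w : Sym2 V → ℕ}

lemma cr_card_le (A : Set V)
    (h : {e ∈ G.edgeSet | ∃ u ∈ A, ∃ v ∉ A, e = s(u, v)}.ncard ≤ 3) :
    (cr G (fun v => v ∈ A)).card ≤ 3 := by
  refine le_trans ?_ h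
  rw [← Set.ncard_coe_finset]
  refine Set.ncard_le_ncard_of_injOn (fun p : V × V => s(p.1, p.2)) ?_ ?_ (Set.toFinite _)
  · intro p hp
    rw [mem_coe, mem_cr] at hp
    exact ⟨hp.1, p.1, hp.2.1, p.2, hp.2.2, rfl⟩
  · rintro ⟨a, b⟩ hp ⟨a', b'⟩ hq hpq
    rw [mem_coe, mem_cr] at hp hq
    rcases Sym2.eq_iff.1 hpq with h1 | h1
    · exact Prod.ext h1.1 h1.2
    · exfalso
      have h2 := hp.2.1
      simp only at h1 h2
      rw [h1.1] at h2
      exact hq.2.2 h2

lemma cr_compl_card (A : V → Prop) : (cr G (fun v => ¬ A v)).card ≤ (cr G A).card := by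
  refine card_le_card_of_injOn Prod.swap ?_ Prod.swap_injective.injOn
  rintro ⟨a, b⟩ hp
  rw [mem_coe, mem_cr] at hp ⊢
  exact ⟨hp.1.symm, not_not.1 hp.2.2, hp.2.1⟩

/-- a side without inner edge of weight two is a triangle of edges of weight one -/
lemma side_tri {m : V → V} (hw : IsWeight G w) (hm : Typ G w m) (A : V → Prop)
    (hA : (cr G A).card ≤ 3) (hin : ∀ a, A a → ¬ A (m a)) {K : G.Subgraph} (hK : IsCircuit K)
    (hKA : ∀ v ∈ K.verts, A v) : ∃ x b c, W1 G w x b ∧ W1 G w x c ∧ W1 G w b c := by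
  have h1 : (univ.filter A).card ≤ 3 := by
    refine le_trans ?_ hA
    refine card_le_card_of_injOn (fun a => (a, m a)) ?_ ?_
    · intro a ha
      rw [mem_coe, mem_filter] at ha
      rw [mem_coe, mem_cr]
      exact ⟨(hm.adj a).1, ha.2, hin a ha.2⟩
    · intro a _ b _ h
      exact (Prod.mk.inj h).1
  have hone : ∀ a b, K.Adj a b → W1 G w a b := by
    intro a b hab
    rcases adj_cases hw (K.adj_sub hab) with h2 | h2
    · exact h2
    · exfalso
      have h3 := hm.uniq a b h2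
      subst h3
      exact hin a (hKA a (K.edge_vert hab)) (hKA _ (K.edge_vert hab.symm))
  obtain ⟨x, hx⟩ := hK.1.nonempty
  have h2 := hK.2 x hx
  rw [Set.ncard_eq_two] at h2
  obtain ⟨b, c, hbc, h3⟩ := h2
  have hxb : K.Adj x b := by
    have : b ∈ K.neighborSet x := by rw [h3]; exact Or.inl rfl
    exact this
  have hxc : K.Adj x c := by
    have : c ∈ K.neighborSet x := by rw [h3]; exact Or.inr rfl
    exact this
  have hbv := K.edge_vert hxb.symm
  have hcv := K.edge_vert hxc.symm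
  have h4 : ({x, b, c} : Finset V) = univ.filter A := by
    refine eq_of_subset_of_card_le ?_ ?_
    · intro v hv
      simp only [mem_insert, mem_singleton] at hv
      rw [mem_filter]
      refine ⟨mem_univ _, ?_⟩
      rcases hv with rfl | rfl | rfl
      exacts [hKA _ hx, hKA _ hbv, hKA _ hcv]
    · rw [card_eq_three.2 ⟨x, b, c, hxb.adj_sub.ne, hxc.adj_sub.ne, hbc, rfl⟩]
      exact h1
  have h5 := hK.2 b hbv
  rw [Set.ncard_eq_two] at h5
  obtain ⟨p, q, hpq, h6⟩ := h5
  have key : ∀ v, K.Adj b v → v = x ∨ v = c := by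
    intro v hv
    have h7 : v ∈ ({x, b, c} : Finset V) := by
      rw [h4, mem_filter]
      exact ⟨mem_univ _, hKA v (K.edge_vert hv.symm)⟩
    simp only [mem_insert, mem_singleton] at h7
    rcases h7 with h7 | h7 | h7
    · exact Or.inl h7
    · exact absurd h7 hv.adj_sub.ne'
    · exact Or.inr h7
  have hbp : K.Adj b p := by
    have : p ∈ K.neighborSet b := by rw [h6]; exact Or.inl rfl
    exact this
  have hbq : K.Adj b q := by
    have : q ∈ K.neighborSet b := by rw [h6]; exact Or.inr rfl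
    exact this
  have hbc' : K.Adj b c := by
    rcases key p hbp with h7 | h7
    · rcases key q hbq with h8 | h8
      · exact absurd (h7.trans h8.symm) hpq
      · rw [← h8]; exact hbq
    · rw [← h7]; exact hbp
  exact ⟨x, b, c, hone x b hxb, hone x c hxc, hone b c hbc'⟩

/-- there is an edge of weight two -/
lemma exists_two (hG : Cubic G) (hw : IsWeight G w) (hcon : ¬ FaithfulCover G w) :
    ∃ x y, W2 G w x y := by
  by_cases hV : Nonempty V
  · obtain ⟨v⟩ := hV
    have h1 : 0 < (univ.filter fun u => W2 G w v u).card := by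
      rcases vertex_type hG hw v with h | h <;> omega
    obtain ⟨u, hu⟩ := card_pos.1 h1
    rw [mem_filter] at hu
    exact ⟨v, u, hu.2⟩
  · exfalso
    apply hcon
    refine ⟨0, fun i => i.elim0, fun i => i.elim0, ?_⟩
    intro e he
    induction e using Sym2.ind with
    | _ a b => exact absurd ⟨a⟩ hV

/-- the covers without `s(a, m a)` and without `s(b, m b)` are glued -/
lemma glue_cov (hcf : ∀ (ι : Type) [Finite ι] (H : ι → SimpleGraph V), (∀ i, H i ≤ G) →
      (∀ i v, ((H i).neighborSet v).ncard = 0 ∨ ((H i).neighborSet v).ncard = 2) →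
      (∀ u v, G.Adj u v → {i | (H i).Adj u v}.ncard = w s(u, v)) → FaithfulCover G w)
    (A : V → Prop) (hA : (cr G A).card ≤ 3) {a a' b b' : V} (ha : ¬ A a) (ha' : ¬ A a')
    (hb : A b) (hb' : A b') (h1 : CoverMinus G w s(a, a')) (h2 : CoverMinus G w s(b, b')) :
    FaithfulCover G w := by
  obtain ⟨n, C, hC, hn⟩ := h1
  obtain ⟨n', C', hC', hn'⟩ := h2
  obtain ⟨H, h3, h4, h5⟩ := glue_fam (w := w) A hA C C' hC hC' (fun u v huv hu => by
      rw [hn _ huv, if_neg]
      intro h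
      rcases Sym2.eq_iff.1 h with h6 | h6
      · rw [h6.1] at hu; exact ha hu
      · rw [h6.1] at hu; exact ha' hu) (fun u v huv hu => by
      rw [hn' _ huv, if_neg]
      intro h
      rcases Sym2.eq_iff.1 h with h6 | h6
      · rw [h6.1] at hu; exact hu hb
      · rw [h6.1] at hu; exact hu hb')
  exact hcf _ H h3 h4 h5

/-- **Minimal contra pairs are cyclically 4-edge-connected.** -/
theorem cyc_of_min (hcf : ∀ (ι : Type) [Finite ι] (H : ι → SimpleGraph V), (∀ i, H i ≤ G) →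
      (∀ i v, ((H i).neighborSet v).ncard = 0 ∨ ((H i).neighborSet v).ncard = 2) →
      (∀ u v, G.Adj u v → {i | (H i).Adj u v}.ncard = w s(u, v)) → FaithfulCover G w)
    (htri : ∀ {x y : V}, Hyp G w x y → ¬ FaithfulCover G w → ∀ {n : ℕ} {C : Fin n → G.Subgraph},
      Cov G w x y C → ∀ {b c : V}, W1 G w x b → W1 G w x c → W1 G w b c → False)
    (hG : Cubic G) (hb : Bridgeless G) (hw : IsWeight G w)
    (hno : ¬ ∃ C : G.Subgraph, Removable G w C) (hcon : ¬ FaithfulCover G w)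
    (hmin : ∀ e ∈ G.edgeSet, w e = 2 → CoverMinus G w e) : CycConn4 G := by
  obtain ⟨x0, y0, hxy⟩ := exists_two hG hw hcon
  have hyp : ∀ x y, W2 G w x y → Hyp G w x y := fun x y h =>
    ⟨hG, hw, hb, h.1, h.2, fun C hC => hno ⟨C, hC⟩⟩
  have hcov : ∀ x y, W2 G w x y → ∃ (n : ℕ) (C : Fin n → G.Subgraph), Cov G w x y C := by
    intro x y h
    obtain ⟨n, C, h1, h2⟩ := hmin s(x, y) h.1 h.2
    exact ⟨n, C, h1, h2⟩
  obtain ⟨n, C, hC⟩ := hcov x0 y0 hxy
  obtain ⟨m, -, hm, -⟩ := exists_col (hyp _ _ hxy) hC hcon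
  have key : ∀ A : V → Prop, (cr G A).card ≤ 3 → (∀ a, A a → ¬ A (m a)) →
      ∀ K : G.Subgraph, IsCircuit K → (∀ v ∈ K.verts, A v) → False := by
    intro A hA hin K hK hKA
    obtain ⟨x, b, c, h1, h2, h3⟩ := side_tri hw hm A hA hin hK hKA
    obtain ⟨n', C', hC'⟩ := hcov x (m x) (hm.adj x)
    exact htri (hyp _ _ (hm.adj x)) hcon hC' h1 h2 h3
  rintro A hA ⟨⟨K1, hK1, h1⟩, ⟨K2, hK2, h2⟩⟩
  have hA' := cr_card_le A hA
  by_cases hin : ∀ a, a ∈ A → m a ∉ A
  · exact key (fun v => v ∈ A) hA' hin K1 hK1 fun v hv => h1 hv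
  by_cases hin' : ∀ a, a ∉ A → m a ∈ A
  · exact key (fun v => ¬ v ∈ A) ((cr_compl_card _).trans hA')
      (fun a ha h => h (hin' a ha)) K2 hK2 fun v hv => h2 hv
  push Not at hin hin'
  obtain ⟨b, hb1, hb2⟩ := hin
  obtain ⟨a, ha1, ha2⟩ := hin'
  exact hcon (glue_cov hcf (fun v => v ∈ A) hA' ha1 ha2 hb1 hb2
    (hmin _ (hm.adj a).1 (hm.adj a).2) (hmin _ (hm.adj b).1 (hm.adj b).2))

end H48FJ
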