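import Pool.Agent.H48.FJ.Fin

/-!
A 3-edge-colouring of `G - e` gives a faithful cover of `(G - e, w)` for every `w` (MP_472c72).
-/

namespace H48FJ

open Pool.Agent.H66.GD Pool.Agent.H21.PT Pool.Agent.H34CP.Gr Finset
open scoped Classical

universe u

variable {V : Type u} [Fintype V] {G : SimpleGraph V} {w : Sym2 V → ℕ}

/-- `G - e`, with the two ends of `e` suppressed, is 3-edge-colourable: the edges of `G` get three
colours such that two different edges `v a`, `v b` other than `e` have the same colour exactly if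
their common end `v` is an end of `e`. -/
def ColMinus (G : SimpleGraph V) (e : Sym2 V) : Prop :=
  ∃ c : Sym2 V → Fin 3, ∀ v a b, G.Adj v a → G.Adj v b → a ≠ b → s(v, a) ≠ e → s(v, b) ≠ e →
    (c s(v, a) = c s(v, b) ↔ v ∈ e)

omit [Fintype V] in
lemma ncard_three {a b c : V} (hab : a ≠ b) (hac : a ≠ c) (hbc : b ≠ c) (P : V → Prop)
    [DecidablePred P] :
    {u | (u = a ∨ u = b ∨ u = c) ∧ P u}.ncard =
      (if P a then 1 else 0) + (if P b then 1 else 0) + (if P c then 1 else 0) := by
  have h : {u | (u = a ∨ u = b ∨ u = c) ∧ P u} = (({a, b, c} : Finset V).filter P : Set V) := by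
    ext u
    simp
  rw [h, Set.ncard_coe_finset, Finset.card_filter, Finset.sum_insert (by simp [hab, hac]),
    Finset.sum_insert (by simp [hbc]), Finset.sum_singleton, add_assoc]

lemma T_gen (i x y z : Fin 3) {p q r : ℕ} (hp : p = 1 ∨ p = 2) (hq : q = 1 ∨ q = 2)
    (hr : r = 1 ∨ r = 2) (hE : Even ((if Odd p then 1 else 0) + (if Odd q then 1 else 0) +
      (if Odd r then 1 else 0) : ℕ)) (hxy : x ≠ y) (hxz : x ≠ z) (hyz : y ≠ z) :
    ((if (p = 1 ∧ x = i) ∨ (p = 2 ∧ x ≠ i) then 1 else 0) +
      (if (q = 1 ∧ y = i) ∨ (q = 2 ∧ y ≠ i) then 1 else 0) +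
      (if (r = 1 ∧ z = i) ∨ (r = 2 ∧ z ≠ i) then 1 else 0) : ℕ) = 0 ∨
    ((if (p = 1 ∧ x = i) ∨ (p = 2 ∧ x ≠ i) then 1 else 0) +
      (if (q = 1 ∧ y = i) ∨ (q = 2 ∧ y ≠ i) then 1 else 0) +
      (if (r = 1 ∧ z = i) ∨ (r = 2 ∧ z ≠ i) then 1 else 0) : ℕ) = 2 := by
  have o1 : Odd 1 := by decide
  have o2 : ¬ Odd 2 := by decide
  rcases hp with rfl | rfl <;> rcases hq with rfl | rfl <;> rcases hr with rfl | rfl <;>
    simp only [o1, o2, if_true, if_false] at hE <;>
    first
      | exact absurd hE (by decide)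
      | (clear hE o1 o2; revert i x y z; decide)

lemma T_end (i y : Fin 3) {q r : ℕ} (hq : q = 1 ∨ q = 2)
    (hr : r = 1 ∨ r = 2) (hE : Even ((if Odd q then 1 else 0) +
      (if Odd r then 1 else 0) : ℕ)) :
    ((if (q = 1 ∧ y = i) ∨ (q = 2 ∧ y ≠ i) then 1 else 0) +
      (if (r = 1 ∧ y = i) ∨ (r = 2 ∧ y ≠ i) then 1 else 0) : ℕ) = 0 ∨
    ((if (q = 1 ∧ y = i) ∨ (q = 2 ∧ y ≠ i) then 1 else 0) +
      (if (r = 1 ∧ y = i) ∨ (r = 2 ∧ y ≠ i) then 1 else 0) : ℕ) = 2 := by
  have o1 : Odd 1 := by decide
  have o2 : ¬ Odd 2 := by decide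
  rcases hq with rfl | rfl <;> rcases hr with rfl | rfl <;>
    simp only [o1, o2, if_true, if_false] at hE <;>
    first
      | exact absurd hE (by decide)
      | (clear hE o1 o2; revert i y; decide)

/-- **A 3-edge-colouring of `G - e` covers `(G - e, w)`.** -/
theorem cover_of_col (hG : Cubic G) (hw : IsWeight G w) {e : Sym2 V} (he : e ∈ G.edgeSet)
    (h2 : w e = 2) (hc : ColMinus G e) : CoverMinus G w e := by
  obtain ⟨c, hc⟩ := hc
  let P : Fin 3 → V → V → Prop := fun i u v =>
    s(u, v) ≠ e ∧ ((w s(u, v) = 1 ∧ c s(u, v) = i) ∨ (w s(u, v) = 2 ∧ c s(u, v) ≠ i))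
  have hPs : ∀ i u v, P i u v → P i v u := by
    intro i u v h
    simp only [P] at h ⊢
    rwa [Sym2.eq_swap]
  let H : Fin 3 → SimpleGraph V := fun i =>
    { Adj := fun u v => G.Adj u v ∧ P i u v
      symm := ⟨fun u v h => ⟨h.1.symm, hPs i u v h.2⟩⟩
      loopless := ⟨fun v h => G.loopless.irrefl v h.1⟩ }
  refine cover_of_family (w := fun f => if f = e then 0 else w f) (Fin 3) H
    (fun i u v h => h.1) ?_ ?_
  · intro i v
    obtain ⟨a, b, d, hab, had, hbd, hN⟩ := Set.ncard_eq_three.1 (hG v)
    have hadj : ∀ u, G.Adj v u ↔ u = a ∨ u = b ∨ u = d := by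
      intro u
      have h : u ∈ G.neighborSet v ↔ u ∈ ({a, b, d} : Set V) := by rw [hN]
      simpa using h
    have hva : G.Adj v a := (hadj a).2 (by simp)
    have hvb : G.Adj v b := (hadj b).2 (by simp)
    have hvd : G.Adj v d := (hadj d).2 (by simp)
    have hE := hw.2 v
    have hE' : {u | G.Adj v u ∧ Odd (w s(v, u))} =
        {u | (u = a ∨ u = b ∨ u = d) ∧ Odd (w s(v, u))} := by
      ext u; simp only [Set.mem_ofPred_eq, hadj]
    rw [hE', ncard_three hab had hbd (fun u => Odd (w s(v, u)))] at hE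
    have hH : (H i).neighborSet v = {u | (u = a ∨ u = b ∨ u = d) ∧ P i v u} := by
      ext u
      simp only [Set.mem_ofPred_eq, ← hadj]
      exact Iff.rfl
    rw [hH, ncard_three hab had hbd (fun u => P i v u)]
    have hsab : s(v, a) ≠ s(v, b) := fun h => hab (Sym2.congr_right.1 h)
    have hsad : s(v, a) ≠ s(v, d) := fun h => had (Sym2.congr_right.1 h)
    have hsbd : s(v, b) ≠ s(v, d) := fun h => hbd (Sym2.congr_right.1 h)
    have hwa := hw.1 _ ((SimpleGraph.mem_edgeSet G).2 hva)
    have hwb := hw.1 _ ((SimpleGraph.mem_edgeSet G).2 hvb)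
    have hwd := hw.1 _ ((SimpleGraph.mem_edgeSet G).2 hvd)
    have k1 := hc v a b hva hvb hab
    have k2 := hc v a d hva hvd had
    have k3 := hc v b d hvb hvd hbd
    have hve : v ∈ e ↔ s(v, a) = e ∨ s(v, b) = e ∨ s(v, d) = e := by
      constructor
      · intro h
        obtain ⟨u, hu⟩ := h
        have h' : G.Adj v u := by rw [hu] at he; exact he
        rcases (hadj u).1 h' with h1 | h1 | h1
        · left; rw [hu, h1]
        · right; left; rw [hu, h1]
        · right; right; rw [hu, h1]
      · rintro (h | h | h) <;> rw [← h] <;> exact Sym2.mem_mk_left _ _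
    simp only [P]
    clear hE' hH hadj hN
    by_cases g1 : s(v, a) = e
    · subst g1
      have m : v ∈ s(v, a) := hve.2 (Or.inl rfl)
      have g2 : s(v, b) ≠ s(v, a) := fun h => hsab h.symm
      have g3 : s(v, d) ≠ s(v, a) := fun h => hsad h.symm
      have k := (k3 g2 g3).2 m
      have hE2 : Even ((if Odd (w s(v, b)) then 1 else 0) + (if Odd (w s(v, d)) then 1 else 0) : ℕ) := by
        simpa [h2, show ¬ Odd 2 by decide] using hE
      have t := T_end i (c s(v, d)) hwb hwd hE2
      simp only [ne_eq, not_true_eq_false, false_and, if_false, zero_add, g2, g3,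
        not_false_eq_true, true_and, k]
      convert t
    · by_cases g2 : s(v, b) = e
      · subst g2
        have m : v ∈ s(v, b) := hve.2 (Or.inr (Or.inl rfl))
        have g3 : s(v, d) ≠ s(v, b) := fun h => hsbd h.symm
        have k := (k2 g1 g3).2 m
        have hE2 : Even ((if Odd (w s(v, a)) then 1 else 0) + (if Odd (w s(v, d)) then 1 else 0) : ℕ) := by
          simpa [h2, show ¬ Odd 2 by decide] using hE
        have t := T_end i (c s(v, d)) hwa hwd hE2
        simp only [ne_eq, not_true_eq_false, false_and, if_false, add_zero, g1, g3,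
          not_false_eq_true, true_and, k]
        convert t
      · by_cases g3 : s(v, d) = e
        · subst g3
          have m : v ∈ s(v, d) := hve.2 (Or.inr (Or.inr rfl))
          have k := (k1 g1 g2).2 m
          have hE2 : Even ((if Odd (w s(v, a)) then 1 else 0) + (if Odd (w s(v, b)) then 1 else 0) : ℕ) := by
            simpa [h2, show ¬ Odd 2 by decide] using hE
          have t := T_end i (c s(v, b)) hwa hwb hE2
          simp only [ne_eq, not_true_eq_false, false_and, if_false, add_zero, g1, g2,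
            not_false_eq_true, true_and, k]
          convert t
        · have m : v ∉ e := fun h => by
            rcases hve.1 h with h | h | h
            exacts [g1 h, g2 h, g3 h]
          have n1 : c s(v, a) ≠ c s(v, b) := fun h => m ((k1 g1 g2).1 h)
          have n2 : c s(v, a) ≠ c s(v, d) := fun h => m ((k2 g1 g3).1 h)
          have n3 : c s(v, b) ≠ c s(v, d) := fun h => m ((k3 g2 g3).1 h)
          have t := T_gen i (c s(v, a)) (c s(v, b)) (c s(v, d)) hwa hwb hwd (by convert hE) n1 n2 n3
          simp only [ne_eq, g1, g2, g3, not_false_eq_true, true_and]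
          convert t
  · intro u v huv
    by_cases h : s(u, v) = e
    · have h3 : {i : Fin 3 | (H i).Adj u v} = ∅ := by
        ext i
        simp only [Set.mem_empty_iff_false, iff_false]
        exact fun hh => hh.2.1 h
      simp only [h, if_true]
      rw [h3, Set.ncard_empty]
    · simp only [h, if_false]
      have hwf := hw.1 _ ((SimpleGraph.mem_edgeSet G).2 huv)
      rcases hwf with h1 | h1
      · have h3 : {i : Fin 3 | (H i).Adj u v} = {c s(u, v)} := by
          ext i
          simp only [Set.mem_singleton_iff]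
          constructor
          · rintro ⟨-, -, h4 | h4⟩
            · exact h4.2.symm
            · rw [h1] at h4; exact absurd h4.1 (by norm_num)
          · intro h4
            exact ⟨huv, h, Or.inl ⟨h1, h4.symm⟩⟩
        rw [h3, Set.ncard_singleton, h1]
      · have h3 : {i : Fin 3 | (H i).Adj u v} = {c s(u, v)}ᶜ := by
          ext i
          simp only [Set.mem_compl_iff, Set.mem_singleton_iff]
          constructor
          · rintro ⟨-, -, h4 | h4⟩
            · rw [h1] at h4; exact absurd h4.1 (by norm_num)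
            · exact fun h5 => h4.2 h5.symm
          · intro h4
            exact ⟨huv, h, Or.inr ⟨h1, fun h5 => h4 h5.symm⟩⟩
        rw [h3, h1]
        have h5 := Set.ncard_add_ncard_compl ({c s(u, v)} : Set (Fin 3))
        rw [Set.ncard_singleton, Nat.card_eq_fintype_card, Fintype.card_fin] at h5
        omega

/-- One edge of weight two whose deletion leaves a coverable pair or a 3-edge-colourable graph. -/
theorem one_or_all' (hG : Cubic G) (hb : Bridgeless G) (hw : IsWeight G w)
    (hno : ¬ ∃ C : G.Subgraph, Removable G w C) {e : Sym2 V} (he : e ∈ G.edgeSet) (h2 : w e = 2)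
    (hcov : CoverMinus G w e ∨ ColMinus G e)
    (hcc : CycConn4 G ∨ ∀ f ∈ G.edgeSet, w f = 2 → CoverMinus G w f ∨ ColMinus G f) :
    IsP10 G w :=
  one_or_all hG hb hw hno he h2 (hcov.elim id (cover_of_col hG hw he h2))
    (hcc.imp id fun h f hf hf2 => (h f hf hf2).elim id (cover_of_col hG hw hf hf2))

end H48FJ
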